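import Mathlib
import Pool.Agent.Lib.H16X.Z3

/-!
# Index sums of three-term progressions of primes: positive lower density
-/

set_option autoImplicit false

open Finset

namespace Pool.Agent.Results.MP_f0e4fe_nt.PositiveDensity

/-- The `j`-th prime: `p 1 = 2`, `p 2 = 3`, `p 3 = 5`, ... -/
noncomputable def p (j : ℕ) : ℕ := Nat.nth Nat.Prime (j - 1)

/-- `0 < k < m < n` and the primes `p_k, p_m, p_n` form an arithmetic progression. -/
def AP (k m n : ℕ) : Prop := 0 < k ∧ k < m ∧ m < n ∧ p k + p n = 2 * p m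

/-- The set `S` of the problem. -/
def S : Set ℕ := {s | ∃ k m n : ℕ, AP k m n ∧ k + m = s}

open Classical in
/-- The number of representations of `s`: the number of `k` (then `m = s - k`) such that
`p_k, p_m, p_n` is an arithmetic progression for some `n`. -/
noncomputable def R (s : ℕ) : ℕ := ((range s).filter (fun k => ∃ m n : ℕ, AP k m n ∧ k + m = s)).card

open Classical in
lemma R_eq (s : ℕ) : ((range s).filter (fun k : ℕ => 0 < k ∧ ∃ m n : ℕ, k < m ∧ m < n ∧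
    k + m = s ∧ Nat.nth Nat.Prime (k - 1) + Nat.nth Nat.Prime (n - 1) =
      2 * Nat.nth Nat.Prime (m - 1))).card = R s := by
  unfold R
  refine congrArg card (filter_congr fun k _ => ?_)
  constructor
  · rintro ⟨h0, m, n, h1, h2, h4, h3⟩
    exact ⟨m, n, ⟨h0, h1, h2, h3⟩, h4⟩
  · rintro ⟨m, n, ⟨h0, h1, h2, h3⟩, h4⟩
    exact ⟨h0, m, n, h1, h2, h4, h3⟩

lemma mem_S_of_R {s : ℕ} (h : 0 < R s) : s ∈ S := by
  classical
  unfold R at h
  obtain ⟨k, hk⟩ := card_pos.mp h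
  obtain ⟨-, m, n, h1, h2⟩ := mem_filter.mp hk
  exact ⟨k, m, n, h1, h2⟩

lemma five_mem : 5 ∈ S := by
  refine ⟨2, 3, 4, ⟨by norm_num, by norm_num, by norm_num, ?_⟩, rfl⟩
  have h3 : Nat.nth Nat.Prime (2 - 1) = 3 := by
    have := Nat.nth_count (p := Nat.Prime) (n := 3) (by norm_num)
    rwa [show Nat.count Nat.Prime 3 = 2 - 1 by decide] at this
  have h5 : Nat.nth Nat.Prime (3 - 1) = 5 := by
    have := Nat.nth_count (p := Nat.Prime) (n := 5) (by norm_num)
    rwa [show Nat.count Nat.Prime 5 = 3 - 1 by decide] at this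
  have h7 : Nat.nth Nat.Prime (4 - 1) = 7 := by
    have := Nat.nth_count (p := Nat.Prime) (n := 7) (by norm_num)
    rwa [show Nat.count Nat.Prime 7 = 4 - 1 by decide] at this
  unfold p
  rw [h3, h5, h7]

open Classical in
/-- First part, for every `δ > 0`: a positive proportion of the integers `s` in `(N, (1 + δ) N]` belong to
`S`, with at least `c N / log N` representations each. -/
lemma first (δ : ℝ) (hδ : 0 < δ) : ∃ c : ℝ, 0 < c ∧ ∃ N₀ : ℕ, ∀ N : ℕ, N₀ ≤ N →
    c * (N : ℝ) ≤ (((Ioc N ⌊(1 + δ) * N⌋₊).filter (fun s : ℕ => s ∈ S ∧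
      c * N / Real.log N ≤ (R s : ℝ))).card : ℝ) := by
  obtain ⟨c, hc, N0, h⟩ := Lib.H16X.Z3 δ hδ
  refine ⟨c, hc, max N0 2, fun N hN => ?_⟩
  have h1 : N0 ≤ N := le_trans (le_max_left _ _) hN
  have h2 : 2 ≤ N := le_trans (le_max_right _ _) hN
  refine (h N h1).trans ?_
  have hN0 : (2 : ℝ) ≤ N := by exact_mod_cast h2
  have hlog : 0 < Real.log N := Real.log_pos (by linarith)
  have hpos : 0 < c * N / Real.log N := by positivity
  refine Nat.cast_le.mpr (card_le_card fun s hs => ?_)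
  obtain ⟨ha, hb⟩ := mem_filter.mp hs
  have hb' : c * N / Real.log N ≤ (R s : ℝ) := by
    rw [← R_eq]
    exact hb
  refine mem_filter.mpr ⟨ha, mem_S_of_R ?_, hb'⟩
  have : (0 : ℝ) < R s := lt_of_lt_of_le hpos hb'
  exact_mod_cast this

open Classical in
theorem result :
    (∀ δ : ℝ, 0 < δ → ∃ c : ℝ, 0 < c ∧ ∃ N₀ : ℕ, ∀ N : ℕ, N₀ ≤ N →
      c * (N : ℝ) ≤ (((Ioc N ⌊(1 + δ) * N⌋₊).filter (fun s : ℕ => s ∈ S ∧
        c * N / Real.log N ≤ (R s : ℝ))).card : ℝ)) ∧
    (∃ c : ℝ, 0 < c ∧ ∀ N : ℕ, 5 ≤ N →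
      c * (N : ℝ) ≤ (((Icc 1 N).filter (fun s : ℕ => s ∈ S)).card : ℝ)) := by
  refine ⟨first, ?_⟩
  obtain ⟨c, hc, N0, h⟩ := first 1 one_pos
  set M : ℕ := 2 * N0 + 2 with hM
  have hMpos : (0 : ℝ) < M := by positivity
  refine ⟨min (c / 3) (1 / M), lt_min (by positivity) (by positivity), fun N hN => ?_⟩
  by_cases hbig : M ≤ N
  · -- the dyadic block below `N`
    have h1 : N0 ≤ N / 2 := by omega
    have h2 := h (N / 2) h1
    have hN0 : (5 : ℝ) ≤ N := by exact_mod_cast hN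
    have h3 : (N : ℝ) / 3 ≤ ((N / 2 : ℕ) : ℝ) := by
      have : N ≤ 3 * (N / 2) := by omega
      have h' : (N : ℝ) ≤ 3 * ((N / 2 : ℕ) : ℝ) := by exact_mod_cast this
      linarith
    calc min (c / 3) (1 / M) * (N : ℝ) ≤ c / 3 * N :=
          mul_le_mul_of_nonneg_right (min_le_left _ _) (by positivity)
      _ = c * (N / 3) := by ring
      _ ≤ c * ((N / 2 : ℕ) : ℝ) := mul_le_mul_of_nonneg_left h3 hc.le
      _ ≤ _ := h2
      _ ≤ (((Icc 1 N).filter (fun s : ℕ => s ∈ S)).card : ℝ) := by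
          refine Nat.cast_le.mpr (card_le_card fun s hs => ?_)
          obtain ⟨ha, hb, -⟩ := mem_filter.mp hs
          rw [mem_Ioc] at ha
          refine mem_filter.mpr ⟨mem_Icc.mpr ⟨by omega, ?_⟩, hb⟩
          have h4 : ⌊(1 + 1 : ℝ) * ((N / 2 : ℕ) : ℝ)⌋₊ ≤ N := by
            have : (1 + 1 : ℝ) * ((N / 2 : ℕ) : ℝ) = ((2 * (N / 2) : ℕ) : ℝ) := by
              push_cast
              ring
            rw [this, Nat.floor_natCast]
            omega
          exact ha.2.trans h4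
  · have h5 : (1 : ℝ) ≤ (((Icc 1 N).filter (fun s : ℕ => s ∈ S)).card : ℝ) := by
      have : 0 < ((Icc 1 N).filter (fun s : ℕ => s ∈ S)).card :=
        card_pos.mpr ⟨5, mem_filter.mpr ⟨mem_Icc.mpr ⟨by norm_num, hN⟩, five_mem⟩⟩
      exact_mod_cast this
    have h6 : (N : ℝ) ≤ M := by
      have : N ≤ M := by omega
      exact_mod_cast this
    calc min (c / 3) (1 / M) * (N : ℝ) ≤ 1 / M * N :=
          mul_le_mul_of_nonneg_right (min_le_right _ _) (by positivity)
      _ ≤ 1 / M * M := mul_le_mul_of_nonneg_left h6 (by positivity)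
      _ = 1 := by field_simp
      _ ≤ _ := h5

end Pool.Agent.Results.MP_f0e4fe_nt.PositiveDensity
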